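import Pool.Agent.Helper63.XP.StB

/-!
# XP module EXX (helper12): existence of `F^p_r(ℤ, X, h)`

Statement: `Pool.Agent.Helper63.XP.StExx` (helper63).
-/

set_option autoImplicit false

namespace Pool.Agent.Helper12.XP

open Pool.Agent.Helper63.XP
open Finset Filter Topology MeasureTheory
open scoped ENNReal
open Pool.Agent.Helper49.KX (FS cmp tw un ev Cov MS LY Rep act nrm IsFp StEvm StAlg)

/-- `ev` is linear -/
private theorem ev_smul' {X : Type} [TopologicalSpace X] {A : Type} [Ring A] [Algebra ℂ A]
    (j : C(X, ℂ) →ₐ[ℂ] A) (U : Aˣ) (c : ℂ) (g : FS X) : ev j U (c • g) = c • ev j U g := by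
  unfold ev
  rw [Finsupp.sum_smul_index' (fun n => by simp), Finsupp.smul_sum]
  refine Finsupp.sum_congr fun n _ => ?_
  rw [map_smul, smul_mul_assoc]

/-- `ev` after a homomorphism -/
private theorem ev_map' {X : Type} [TopologicalSpace X] {A B : Type} [Ring A] [Algebra ℂ A]
    [Ring B] [Algebra ℂ B] (j : C(X, ℂ) →ₐ[ℂ] A) (U : Aˣ) (ι : A →ₐ[ℂ] B) (g : FS X) :
    ev (ι.comp j) (Units.map (ι : A →* B) U) g = ι (ev j U g) := by
  unfold ev
  rw [map_finsuppSum]
  refine Finsupp.sum_congr fun n _ => ?_
  rw [map_mul, ← map_zpow]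
  rfl

/-- module EXX -/
theorem hEXX : StExx := by
  intro hNrg hNlx hEvm hAlg p _ hp X _ _ h
  obtain ⟨A0, iR, iA, j0, U0, hcov, hbij⟩ := hAlg hEvm X h
  obtain ⟨-, eadd, esub, eun, emul⟩ := hEvm X h A0 j0 U0 hcov
  obtain ⟨-, n0, nadd, nsmul, nmul, -⟩ := hNrg p hp X h
  have nz : ∀ g : FS X, nrm p h g = 0 → g = 0 := fun g => (hNlx hNrg p hp X h g).2
  have nzero : nrm p h (0 : FS X) = 0 := by
    have h1 := nsmul 0 0
    rw [norm_zero, zero_mul, smul_zero] at h1
    exact le_antisymm h1 (n0 _)
  have nneg : ∀ g : FS X, nrm p h (-g) ≤ nrm p h g := by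
    intro g
    have h1 := nsmul (-1) g
    rw [norm_neg, norm_one, one_mul, neg_smul, one_smul] at h1
    exact h1
  obtain ⟨s, hs, hs'⟩ : ∃ s : A0 → FS X, (∀ g, s (ev j0 U0 g) = g) ∧ ∀ a, ev j0 U0 (s a) = a :=
    ⟨(Equiv.ofBijective (ev j0 U0) hbij).symm,
      (Equiv.ofBijective (ev j0 U0) hbij).symm_apply_apply,
      (Equiv.ofBijective (ev j0 U0) hbij).apply_symm_apply⟩
  have ezero : ev j0 U0 (0 : FS X) = 0 := by
    have h1 := eadd 0 0
    rw [add_zero] at h1
    simpa using h1
  have s0 : s 0 = 0 := by rw [← ezero, hs]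
  have sadd : ∀ a b, s (a + b) = s a + s b := by
    intro a b
    have h1 := eadd (s a) (s b)
    rw [hs', hs'] at h1
    rw [← h1, hs]
  have smul : ∀ a b, s (a * b) = tw h (s a) (s b) := by
    intro a b
    have h1 := emul (s a) (s b)
    rw [hs', hs'] at h1
    rw [← h1, hs]
  have ssmul : ∀ (c : ℂ) a, s (c • a) = c • s a := by
    intro c a
    have h1 := ev_smul' j0 U0 c (s a)
    rw [hs'] at h1
    rw [← h1, hs]
  have sneg : ∀ a, s (-a) = -s a := by
    intro a
    have h1 := ssmul (-1) a
    rwa [neg_smul, one_smul, neg_smul, one_smul] at h1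
  let f : RingNorm A0 :=
    { toFun := fun a => nrm p h (s a)
      map_zero' := by
        beta_reduce
        rw [s0, nzero]
      add_le' := fun a b => by
        beta_reduce
        rw [sadd]
        exact nadd _ _
      neg' := fun a => by
        beta_reduce
        rw [sneg]
        refine le_antisymm (nneg _) ?_
        have h1 := nneg (-s a)
        rwa [neg_neg] at h1
      mul_le' := fun a b => by
        beta_reduce
        rw [smul]
        exact nmul _ _
      eq_zero_of_map_eq_zero' := fun a ha => by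
        have h1 := nz _ ha
        rw [← hs' a, h1, ezero] }
  let iN : NormedRing A0 := f.toNormedRing
  have hnorm : ∀ a : A0, ‖a‖ = nrm p h (s a) := fun _ => rfl
  let iNA : NormedAlgebra ℂ A0 :=
    { iA with
      norm_smul_le := fun c a => by
        rw [hnorm, hnorm, ssmul]
        exact nsmul c _ }
  let iC : NormedAlgebra ℂ (UniformSpace.Completion A0) :=
    { (inferInstance : Algebra ℂ (UniformSpace.Completion A0)) with
      norm_smul_le := fun c a => norm_smul_le c a }
  let ι : A0 →ₐ[ℂ] UniformSpace.Completion A0 :=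
    { (UniformSpace.Completion.coeRingHom : A0 →+* UniformSpace.Completion A0) with
      commutes' := fun r => rfl }
  have hι : ∀ a : A0, ι a = (a : UniformSpace.Completion A0) := fun _ => rfl
  refine ⟨UniformSpace.Completion A0, inferInstance, iC, ι.comp j0,
    Units.map (ι : A0 →* UniformSpace.Completion A0) U0, ?_, ?_, ?_, ?_⟩
  · infer_instance
  · intro g
    have h1 := congrArg ι (hcov g)
    rw [map_mul, map_mul] at h1
    exact h1
  · intro g
    rw [ev_map', hι, UniformSpace.Completion.norm_coe, hnorm, hs]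
  · have h1 : Set.range (ev (ι.comp j0) (Units.map (ι : A0 →* UniformSpace.Completion A0) U0)) =
        Set.range ((↑) : A0 → UniformSpace.Completion A0) := by
      ext y
      constructor
      · rintro ⟨g, rfl⟩
        exact ⟨ev j0 U0 g, (ev_map' j0 U0 ι g).symm⟩
      · rintro ⟨a, rfl⟩
        refine ⟨s a, ?_⟩
        rw [ev_map', hs']
        exact hι a
    rw [h1]
    exact UniformSpace.Completion.denseRange_coe

end Pool.Agent.Helper12.XP
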